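import Pool.Agent.Helper86.SJ.Defs

/-! # Package UP: few supports clash at two given coordinates -/

set_option autoImplicit false

open Finset

namespace Pool.Agent.Helper30.SJ

open _root_.SJ

theorem mem_supp {n : ℕ} (v : Fin n → ℤ) (i : Fin n) : i ∈ supp v ↔ v i ≠ 0 := by
  simp [supp]

/-- the subsets of `M` with `m` elements which meet a set `R` with `r` elements -/
theorem card_meet {α : Type*} [DecidableEq α] (M R : Finset α) (m : ℕ) (hR : R ⊆ M) :
    #((powersetCard m M).filter (fun S => ∃ z ∈ R, z ∈ S)) ≤ #R * (#M - 1).choose (m - 1) := by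
  have h1 : (powersetCard m M).filter (fun S => ∃ z ∈ R, z ∈ S) ⊆
      R.biUnion fun z => (powersetCard m M).filter (fun S => z ∈ S) := by
    intro S hS
    rw [mem_filter] at hS
    obtain ⟨hS, z, hz, hzS⟩ := hS
    rw [mem_biUnion]
    exact ⟨z, hz, mem_filter.2 ⟨hS, hzS⟩⟩
  refine (card_le_card h1).trans (card_biUnion_le_card_mul _ _ _ fun z hz => ?_)
  have hzM : z ∈ M := hR hz
  have h2 : #((powersetCard m M).filter (fun S => z ∈ S)) ≤ #(powersetCard (m - 1) (M.erase z)) := by
    refine card_le_card_of_injOn (fun S => S.erase z) ?_ ?_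
    · intro S hS
      rw [mem_coe, mem_filter, mem_powersetCard] at hS
      rw [mem_coe, mem_powersetCard]
      exact ⟨erase_subset_erase _ hS.1.1, by rw [card_erase_of_mem hS.2, hS.1.2]⟩
    · intro S hS S' hS' h
      rw [mem_coe, mem_filter] at hS hS'
      have h' : S.erase z = S'.erase z := h
      rw [← insert_erase hS.2, h', insert_erase hS'.2]
  rwa [card_powersetCard, card_erase_of_mem hzM] at h2

theorem up : UPStm := by
  classical
  intro n k F hk hF x y hxy v0 hv0 hc0 μ hμ
  have hxD : x ∉ DD F x y := by
    intro h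
    rw [DD, mem_filter] at h
    exact h.2.1.1 rfl
  have hyD : y ∉ DD F x y := by
    intro h
    rw [DD, mem_filter] at h
    exact h.2.2.1.1 rfl
  set D := DD F x y with hD
  set M : Finset (Fin n) := univ \ (insert x (insert y D)) with hM
  have hMc : #M = μ := by
    have hx : x ∉ insert y D := by
      rw [mem_insert, not_or]
      exact ⟨hxy, hxD⟩
    rw [hM, card_univ_sdiff, card_insert_of_notMem hx, card_insert_of_notMem hyD, Fintype.card_fin]
    omega
  have hr : ∀ v ∈ F, ClashV F v x y → ((supp v).erase x).erase y ∈ powersetCard (k - 2) M := by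
    intro v hv hc
    have hx : x ∈ supp v := (mem_supp v x).2 hc.1
    have hy : y ∈ (supp v).erase x := mem_erase.2 ⟨hxy.symm, (mem_supp v y).2 hc.2.1⟩
    rw [mem_powersetCard]
    constructor
    · intro i hi
      rw [mem_erase, mem_erase] at hi
      rw [hM, mem_sdiff, mem_insert, mem_insert]
      refine ⟨mem_univ _, ?_⟩
      rintro (h | h | h)
      · exact hi.2.1 h
      · exact hi.1 h
      · rw [hD, DD, mem_filter] at h
        exact (mem_supp v i).1 hi.2.2 (h.2.2.2 v hv hc)
    · rw [card_erase_of_mem hy, card_erase_of_mem hx, (hF.1 v hv).2]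
      omega
  have hinj : ∀ S S' : Finset (Fin n), x ∈ S → y ∈ S → x ∈ S' → y ∈ S' →
      (S.erase x).erase y = (S'.erase x).erase y → S = S' := by
    intro S S' h1 h2 h3 h4 h
    ext i
    by_cases hix : i = x
    · rw [hix]; exact ⟨fun _ => h3, fun _ => h1⟩
    by_cases hiy : i = y
    · rw [hiy]; exact ⟨fun _ => h4, fun _ => h2⟩
    have h5 : i ∈ (S.erase x).erase y ↔ i ∈ (S'.erase x).erase y := by rw [h]
    rw [mem_erase, mem_erase, mem_erase, mem_erase] at h5
    constructor
    · intro h6
      exact (h5.1 ⟨hiy, hix, h6⟩).2.2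
    · intro h6
      exact (h5.2 ⟨hiy, hix, h6⟩).2.2
  have hmem : ∀ v, ClashV F v x y → x ∈ supp v ∧ y ∈ supp v := fun v hc =>
    ⟨(mem_supp v x).2 hc.1, (mem_supp v y).2 hc.2.1⟩
  constructor
  · -- the four patterns
    let cQ : ℤ × ℤ → Finset (Finset (Fin n)) := fun p =>
      (F.filter (fun v => ClashV F v x y ∧ v x = p.1 ∧ v y = p.2)).image supp
    have hsub : cP F x y ⊆ (({1, -1} : Finset ℤ) ×ˢ ({1, -1} : Finset ℤ)).biUnion cQ := by
      intro S hS
      rw [cP, mem_image] at hS
      obtain ⟨v, hv, rfl⟩ := hS
      rw [mem_filter] at hv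
      rw [mem_biUnion]
      refine ⟨(v x, v y), ?_, ?_⟩
      · rw [mem_product]
        have h1 := (hF.1 v hv.1).1 x
        have h2 := (hF.1 v hv.1).1 y
        have h3 := hv.2.1
        have h4 := hv.2.2.1
        constructor
        · rw [mem_insert, mem_singleton]
          rcases h1 with h | h | h
          · exact Or.inr h
          · exact absurd h h3
          · exact Or.inl h
        · rw [mem_insert, mem_singleton]
          rcases h2 with h | h | h
          · exact Or.inr h
          · exact absurd h h4
          · exact Or.inl h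
      · exact mem_image_of_mem _ (mem_filter.2 ⟨hv.1, hv.2, rfl, rfl⟩)
    have hcard : #(({1, -1} : Finset ℤ) ×ˢ ({1, -1} : Finset ℤ)) = 4 := by decide
    rw [← hcard]
    refine (card_le_card hsub).trans (card_biUnion_le_card_mul _ _ _ fun p _ => ?_)
    -- one pattern
    rcases (cQ p).eq_empty_or_nonempty with he | ⟨S0, hS0⟩
    · rw [he]; simp
    · rw [mem_image] at hS0
      obtain ⟨v1, hv1, -⟩ := hS0
      rw [mem_filter] at hv1
      obtain ⟨hv1F, hv1c, hv1x, hv1y⟩ := hv1
      obtain ⟨w, hwF, hwx, hwy⟩ := hv1c.2.2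
      have hwc : ClashV F w x y := by
        refine ⟨?_, ?_, v1, hv1F, ?_, ?_⟩
        · rw [hwx]; exact neg_ne_zero.2 hv1c.1
        · rw [hwy]; exact neg_ne_zero.2 hv1c.2.1
        · rw [hwx, neg_neg]
        · rw [hwy, neg_neg]
      have hR := hr w hwF hwc
      rw [mem_powersetCard] at hR
      have h3 := card_meet M (((supp w).erase x).erase y) (k - 2) hR.1
      rw [hR.2, hMc] at h3
      have h4 : k - 2 - 1 = k - 3 := by omega
      rw [h4] at h3
      refine le_trans ?_ h3
      refine card_le_card_of_injOn (fun S => (S.erase x).erase y) ?_ ?_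
      · intro S hS
        rw [mem_coe, mem_image] at hS
        obtain ⟨v, hv, rfl⟩ := hS
        rw [mem_filter] at hv
        obtain ⟨hvF, hvc, hvx, hvy⟩ := hv
        refine mem_coe.2 ((@mem_filter _ _ (_) _ _).2 ⟨hr v hvF hvc, ?_⟩)
        by_contra hcon
        push Not at hcon
        -- the dot product is `-2`
        have hrest : ∀ i, i ≠ x → i ≠ y → v i * w i = 0 := by
          intro i hix hiy
          by_contra h
          have hvi : v i ≠ 0 := left_ne_zero_of_mul h
          have hwi : w i ≠ 0 := right_ne_zero_of_mul h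
          exact hcon i (mem_erase.2 ⟨hiy, mem_erase.2 ⟨hix, (mem_supp w i).2 hwi⟩⟩)
            (mem_erase.2 ⟨hiy, mem_erase.2 ⟨hix, (mem_supp v i).2 hvi⟩⟩)
        have hsum : dot v w = v x * w x + v y * w y := by
          have h5 : dot v w = ∑ i ∈ ({x, y} : Finset (Fin n)), v i * w i := by
            unfold dot
            symm
            refine sum_subset (subset_univ _) ?_
            intro i _ hi
            rw [mem_insert, mem_singleton, not_or] at hi
            exact hrest i hi.1 hi.2
          rw [h5, sum_pair hxy]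
        have hsq : ∀ i, v i ≠ 0 → v i * v i = 1 := by
          intro i hi
          rcases (hF.1 v hvF).1 i with h | h | h
          · rw [h]; norm_num
          · exact absurd h hi
          · rw [h]; norm_num
        have hwx' : w x = - v x := by rw [hwx, hv1x, hvx]
        have hwy' : w y = - v y := by rw [hwy, hv1y, hvy]
        have hdot : dot v w = -2 := by
          rw [hsum, hwx', hwy']
          have h6 := hsq x hvc.1
          have h7 := hsq y hvc.2.1
          linarith
        refine hF.2 v hvF w hwF ?_ hdot
        intro h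
        rw [← h] at hwx'
        exact hvc.1 (by omega)
      · intro S hS S' hS' h
        rw [mem_coe, mem_image] at hS hS'
        obtain ⟨v, hv, rfl⟩ := hS
        obtain ⟨v', hv', rfl⟩ := hS'
        rw [mem_filter] at hv hv'
        have h5 := hmem v hv.2.1
        have h6 := hmem v' hv'.2.1
        exact hinj _ _ h5.1 h5.2 h6.1 h6.2 h
  · rw [← hMc, ← card_powersetCard]
    refine card_le_card_of_injOn (fun S => (S.erase x).erase y) ?_ ?_
    · intro S hS
      rw [mem_coe, cP, mem_image] at hS
      obtain ⟨v, hv, rfl⟩ := hS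
      rw [mem_filter] at hv
      exact hr v hv.1 hv.2
    · intro S hS S' hS' h
      rw [mem_coe, cP, mem_image] at hS hS'
      obtain ⟨v, hv, rfl⟩ := hS
      obtain ⟨v', hv', rfl⟩ := hS'
      rw [mem_filter] at hv hv'
      have h5 := hmem v hv.2
      have h6 := hmem v' hv'.2
      exact hinj _ _ h5.1 h5.2 h6.1 h6.2 h

end Pool.Agent.Helper30.SJ
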